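import Pool.Agent.R424.TG.Gauss
import Pool.Agent.R424.TG.Main
import Pool.Agent.Y152.RP.Main
import Pool.Agent.Y152.RP.PlaceM

/-!
Arbitrary one-parameter families of subsets of `Y(1)^n × G_m^k`: the tropical criterion for algebraic
parameters which are near to rational numbers at places above large primes (helper file).
-/

set_option autoImplicit false

namespace Pool.Agent.NH84.TP

open MvPolynomial Pool.Agent.R424.TG
open Pool.Agent.Y152.RP.FamM (NoAtypical)

/-- The parameter `t` is near to the rational number `α` at a place above a prime larger than `b`. -/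
def Near (b : ℕ) (t : ℂ) (α : ℚ) : Prop :=
  ∃ G : Polynomial ℤ, Irreducible G ∧ Polynomial.aeval t G = 0 ∧
    ∃ p : ℕ, p.Prime ∧ b < p ∧ (p : ℤ) ∣ Pool.Agent.Y152.BD.Nv G α

/-- The finite set of the complex numbers belonging to `D`. -/
noncomputable def imQ (D : Finset ℚ) : Finset ℂ := D.image fun q : ℚ => (q : ℂ)

/-- The criterion for one parameter. -/
theorem criterion (K : Subfield ℂ) [Countable K] (κ : Type) [Finite κ] (n k₀ N m : ℕ)
    (P : κ → MvPolynomial ((Fin n ⊕ Fin k₀) ⊕ Fin N) (Polynomial K)) (D : Finset ℚ)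
    (Γ : Finset ℂ) (hΓ : ∀ γ ∈ Γ, IsAlgebraic K γ) :
    ∃ b : ℕ, ∀ t : ℂ, t ∉ imQ D →
      (∀ (r : ℕ) (cls : Fin n → Option (Fin r)) (d : Fin n → ℕ) (L : Submodule ℚ (Fin k₀ → ℚ)),
        (∀ i, 0 < d i) → r + Module.finrank ℚ L + m < n + k₀ →
        ∃ α ∈ D, Near b t α ∧ ∀ w ∈ Trop ((α : ℚ) : ℂ) P, ¬ Compatible cls d L w) →
      NoAtypical (algebraMap (Algebra.adjoin ℤ (Γ : Set ℂ)) ℂ) K m (member t P) := by
  classical
  let k := algebraicClosure K ℂ
  have hcl : IsAlgClosure K k := inferInstance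
  have hlift : ∀ S : Finset ℂ, (∀ z ∈ S, IsAlgebraic K z) → ∃ S' : Finset k,
      (∀ z : k, z ∈ S' ↔ algebraMap k ℂ z ∈ S) ∧
      algebraMap k ℂ '' (S' : Set k) = (S : Set ℂ) := by
    intro S hS
    have hmem : ∀ z ∈ S, z ∈ algebraicClosure K ℂ := fun z hz =>
      mem_algebraicClosure_iff'.2 (hS z hz).isIntegral
    have h1 : ∀ z : k, z ∈ (S.attach.image fun z => (⟨z.1, hmem z.1 z.2⟩ : k)) ↔
        algebraMap k ℂ z ∈ S := by
      intro z
      constructor
      · intro hz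
        obtain ⟨w, _, hw⟩ := Finset.mem_image.1 hz
        rw [← hw]
        exact w.2
      · intro hz
        exact Finset.mem_image.2 ⟨⟨z.1, hz⟩, Finset.mem_attach _ _, rfl⟩
    refine ⟨S.attach.image fun z => ⟨z.1, hmem z.1 z.2⟩, h1, ?_⟩
    ext z
    constructor
    · rintro ⟨w, hw, rfl⟩
      exact (h1 w).1 hw
    · intro hz
      exact ⟨⟨z, hmem z hz⟩, (h1 _).2 hz, rfl⟩
  obtain ⟨Γf, -, hΓf⟩ := hlift Γ hΓ
  let Γ' : Set k := (Γf : Set k)
  have hΓ' : algebraMap k ℂ '' Γ' = (Γ : Set ℂ) := hΓf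
  let D' : Finset k := D.image fun q : ℚ => (q : k)
  obtain ⟨W₀, hW₀, hDW, hcore⟩ := core P m D' Γ' Γf.finite_toSet
  have : Finite W₀ := hW₀
  have : Fintype W₀ := Fintype.ofFinite W₀
  obtain ⟨b₀, hb₀⟩ := Pool.Agent.Y152.RP.exists_valU (k := k) (fun w : W₀ => (w : k))
  refine ⟨b₀ + ∑ α ∈ D, α.den, fun t ht hgood => ?_⟩
  refine noAtypical_of_points K _ (fun x hx => hx.1) ?_
  have h1 := hcore t K le_rfl (fun α hα h => ht (by
      obtain ⟨q, hq, rfl⟩ := Finset.mem_image.1 hα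
      rw [h, map_ratCast]
      exact Finset.mem_image_of_mem _ hq))
    (fun r cls d L hd hr => by
      obtain ⟨α, hα, ⟨G, hG, hGt, p, hp, hpb, hpd⟩, hno⟩ := hgood r cls d L hd hr
      refine ⟨(α : k), Finset.mem_image_of_mem _ hα, fun ρ x hx => ?_, by
        rw [map_ratCast]; exact hno⟩
      have hden : ¬ p ∣ α.den := by
        intro h
        have h2 := Nat.le_of_dvd α.den_pos h
        have h3 : α.den ≤ ∑ α ∈ D, α.den :=
          Finset.single_le_sum (f := fun α : ℚ => α.den) (fun _ _ => Nat.zero_le _) hα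
        omega
      obtain ⟨V, hV1, hV2, hV3⟩ := hb₀ p hp (by omega) t G hG hGt α hden hpd ρ x
        (hx.extendScalars k)
      refine ⟨V, ?_, fun z hz => hV2 ⟨z, hz⟩, hV3⟩
      rw [map_ratCast]
      exact hV1)
  rw [hΓ'] at h1
  exact h1

/-- From arithmetic to finiteness. -/
theorem finite_of (K : Subfield ℂ) [Countable K] (κ : Type) [Finite κ] (n k₀ N m e : ℕ)
    (P : κ → MvPolynomial ((Fin n ⊕ Fin k₀) ⊕ Fin N) (Polynomial K)) (D : Finset ℚ)
    (Γ : Finset ℂ) (hΓ : ∀ γ ∈ Γ, IsAlgebraic K γ) (S : Set ℂ)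
    (harith : ∀ b L M : ℕ, L + e ≤ M → ∀ α : Fin M → ℚ, Function.Injective α → (∀ l, α l ∈ D) →
      {t : ℂ | t ∈ S ∧ ¬ ∃ f : Fin L → Fin M, Function.Injective f ∧
        ∃ G : Polynomial ℤ, Irreducible G ∧ Polynomial.aeval t G = 0 ∧
          ∀ l, ∃ p : ℕ, p.Prime ∧ b < p ∧ (p : ℤ) ∣ Pool.Agent.Y152.BD.Nv G (α (f l))}.Finite)
    (hgen : Generic m (e + 1) P (imQ D)) :
    {t : ℂ | t ∈ S ∧ ¬ NoAtypical (algebraMap (Algebra.adjoin ℤ (Γ : Set ℂ)) ℂ) K m
      (member t P)}.Finite := by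
  classical
  obtain ⟨b, hb⟩ := criterion K κ n k₀ N m P D Γ hΓ
  rcases Nat.lt_or_ge m (n + k₀) with hm | hm
  swap
  · refine (imQ D).finite_toSet.subset ?_
    rintro t ⟨-, ht⟩
    by_contra hcon
    exact ht (hb t (fun h => hcon h) fun r cls d L hd hr => by omega)
  -- `D` is large
  have hinj : Function.Injective fun q : ℚ => (q : ℂ) := Rat.cast_injective
  have hD : e + 1 ≤ D.card := by
    obtain ⟨I, hI, hIc, -⟩ := hgen 0 (fun _ => none) (fun _ => 1) ⊥ (fun _ => Nat.one_pos)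
      (by rw [finrank_bot]; omega)
    have h1 := Finset.card_le_card hI
    have h2 : (imQ D).card = D.card := Finset.card_image_of_injective _ hinj
    omega
  let α : Fin D.card → ℚ := fun l => (D.equivFin.symm l : ℚ)
  have hα : Function.Injective α := fun a c h =>
    D.equivFin.symm.injective (Subtype.ext h)
  have hαD : ∀ l, α l ∈ D := fun l => (D.equivFin.symm l).2
  have hfin := harith b (D.card - e) D.card (by omega) α hα hαD
  refine (hfin.union (imQ D).finite_toSet).subset ?_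
  rintro t ⟨htS, ht⟩
  by_contra hcon
  rw [Set.mem_union, not_or] at hcon
  obtain ⟨h1, h2⟩ := hcon
  have h3 : ∃ f : Fin (D.card - e) → Fin D.card, Function.Injective f ∧
      ∃ G : Polynomial ℤ, Irreducible G ∧ Polynomial.aeval t G = 0 ∧
        ∀ l, ∃ p : ℕ, p.Prime ∧ b < p ∧ (p : ℤ) ∣ Pool.Agent.Y152.BD.Nv G (α (f l)) := by
    by_contra h
    exact h1 ⟨htS, h⟩
  obtain ⟨f, hf, G, hG, hGt, hp⟩ := h3
  refine ht (hb t h2 fun r cls d L hd hr => ?_)
  obtain ⟨I, hI, hIc, hno⟩ := hgen r cls d L hd hr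
  by_contra hall
  push Not at hall
  -- the elements of `I` are not in the range
  let A : Finset ℂ := Finset.univ.image fun l => ((α (f l) : ℚ) : ℂ)
  have hA : A.card = D.card - e := by
    have h7 : Function.Injective fun l => ((α (f l) : ℚ) : ℂ) := hinj.comp (hα.comp hf)
    rw [Finset.card_image_of_injective _ h7, Finset.card_univ, Fintype.card_fin]
  have hAD : A ⊆ imQ D := by
    intro z hz
    obtain ⟨l, -, rfl⟩ := Finset.mem_image.1 hz
    exact Finset.mem_image_of_mem _ (hαD _)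
  have hdisj : Disjoint A I := by
    rw [Finset.disjoint_left]
    rintro z hz hzI
    obtain ⟨l, -, rfl⟩ := Finset.mem_image.1 hz
    obtain ⟨w, hw, hw'⟩ := hall (α (f l)) (hαD _) ⟨G, hG, hGt, hp l⟩
    exact hno _ hzI w hw hw'
  have h4 := Finset.card_le_card (Finset.union_subset hAD hI)
  rw [Finset.card_union_of_disjoint hdisj, hA] at h4
  have h5 : (imQ D).card = D.card := Finset.card_image_of_injective _ hinj
  omega

end Pool.Agent.NH84.TP
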